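import Mathlib
import Pool.Agent.H14.ThreshDefs
import Pool.Agent.H14.ThreshProof

namespace Pool.Agent.Results.MP_dfc8ea_co.Wheel

open Pool.Agent.H14.ThreshDefs

theorem result : ∃ (h : ℕ) (H : SimpleGraph (Fin h)), H.Connected ∧ deltaHom H < deltaB H := by
  refine ⟨5, Pool.Agent.H14.Wheel.W4, by decide, ?_⟩
  have h1 := Pool.Agent.H14.ThreshProof.deltaHom_le
  have h2 := Pool.Agent.H14.ThreshProof.deltaB_ge
  linarith

end Pool.Agent.Results.MP_dfc8ea_co.Wheel
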